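import Pool.Agent.Helper884_ChainCount.Dim

/-!
# Colourings without a red Boolean lattice have blue sets of large order dimension
-/

set_option autoImplicit false

namespace Pool.Agent.Results.MP_b193f0_co.BlueDimension

open Pool.Agent.Helper884_ChainCount

/-- From an inequality between logarithms to one between natural numbers. -/
lemma lt_of_log {M K r k N R : ℕ} (hM : 1 ≤ M) (hK : 1 ≤ K) (hr : 1 ≤ r)
    (h : (R : ℝ) * Real.log M + (R : ℝ) ^ 2 * Real.log K + N * Real.log 2 < k * Real.log r) :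
    M ^ R * (K ^ (R ^ 2) * 2 ^ N) < r ^ k := by
  by_contra hle
  push Not at hle
  have hcast : ((r : ℝ) ^ k) ≤ (M : ℝ) ^ R * ((K : ℝ) ^ (R ^ 2) * 2 ^ N) := by exact_mod_cast hle
  have hM' : (0 : ℝ) < M := by exact_mod_cast hM
  have hK' : (0 : ℝ) < K := by exact_mod_cast hK
  have hr' : (0 : ℝ) < r := by exact_mod_cast hr
  have h1 : Real.log ((r : ℝ) ^ k) ≤ Real.log ((M : ℝ) ^ R * ((K : ℝ) ^ (R ^ 2) * 2 ^ N)) :=
    Real.log_le_log (by positivity) hcast
  rw [Real.log_pow, Real.log_mul (by positivity) (by positivity), Real.log_pow,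
    Real.log_mul (by positivity) (by positivity), Real.log_pow, Real.log_pow] at h1
  push_cast at h1
  linarith

/-- **Large blue dimension.** There is a constant `C` such that for all `n ≥ 2` and `d ≥ 1` with
`C d log n ≤ n` there is `N ≤ n + C n / log (n / (d log n))` such that in every blue/red colouring of
the Boolean lattice on `N` points without a red copy of `Q_n` the blue sets, ordered by inclusion,
have order dimension larger than `d` (no order embedding into `ℕ ^ d`). -/
theorem result :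
    ∃ C : ℝ, 0 < C ∧ ∀ n d : ℕ, 2 ≤ n → 1 ≤ d → C * (d * Real.log n) ≤ n →
      ∃ N : ℕ, (N : ℝ) ≤ n + C * n / Real.log (n / (d * Real.log n)) ∧
        ∀ c : Finset (Fin N) → Bool,
          IsEmpty ({x : Finset (Fin N) // c x = true} ↪o (Fin d → ℕ)) ∨
          (∃ g : Finset (Fin n) ↪o Finset (Fin N), ∀ x : Finset (Fin n), c (g x) = false) := by
  refine ⟨Real.exp 110, Real.exp_pos _, ?_⟩
  intro n d hn hd hC
  have hn' : (2 : ℝ) ≤ n := by exact_mod_cast hn
  have hd' : (1 : ℝ) ≤ d := by exact_mod_cast hd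
  have hlogn : 0 < Real.log n := Real.log_pos (by linarith)
  have hlog2 : 0.6931471803 < Real.log 2 := Real.log_two_gt_d9
  have hlog2' : Real.log 2 < 0.6931471808 := Real.log_two_lt_d9
  have hlogn2 : Real.log 2 ≤ Real.log n := Real.log_le_log (by norm_num) hn'
  have hdlog : 0 < (d : ℝ) * Real.log n := by positivity
  set x := (n : ℝ) / (d * Real.log n) with hx
  have hxC : Real.exp 110 ≤ x := by
    rw [hx, le_div_iff₀ hdlog]
    exact hC
  have hxpos : 0 < x := (Real.exp_pos _).trans_le hxC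
  set ℓ := Real.log x with hℓ
  have hℓ110 : 110 ≤ ℓ := by
    rw [hℓ, Real.le_log_iff_exp_le hxpos]
    exact hxC
  have hx111 : (111 : ℝ) ≤ x := by
    have := Real.add_one_le_exp (110 : ℝ)
    linarith
  have hxn : x * (d * Real.log n) = n := by rw [hx]; field_simp
  have hx2n : x ≤ 2 * n := by
    have h1 : x * 0.5 ≤ x * (d * Real.log n) := by
      apply mul_le_mul_of_nonneg_left _ hxpos.le
      nlinarith
    rw [hxn] at h1
    linarith
  have hℓ2n : ℓ ≤ 2 * n := by
    have := Real.log_le_sub_one_of_pos hxpos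
    rw [← hℓ] at this
    linarith
  have hℓpos : 0 < ℓ := by linarith
  set k := ⌊110 * n / ℓ⌋₊ with hk
  have hkle : (k : ℝ) ≤ 110 * n / ℓ := Nat.floor_le (by positivity)
  have hklt : 110 * n / ℓ < k + 1 := Nat.lt_floor_add_one _
  have hkn : (k : ℝ) ≤ n := by
    refine hkle.trans ?_
    rw [div_le_iff₀ hℓpos]
    nlinarith
  set r := ⌊Real.sqrt x⌋₊ with hr
  have hsq : Real.sqrt x ^ 2 = x := Real.sq_sqrt hxpos.le
  have hsq2 : 2 ≤ Real.sqrt x := by
    apply Real.le_sqrt_of_sq_le
    linarith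
  have hrle : (r : ℝ) ≤ Real.sqrt x := Nat.floor_le (Real.sqrt_nonneg _)
  have hrlt : Real.sqrt x < r + 1 := Nat.lt_floor_add_one _
  have hr1 : 1 ≤ r := by
    have : (0 : ℝ) < r := by linarith
    exact_mod_cast this
  have hexp : (110 : ℝ) ≤ Real.exp 110 := by
    have := Real.add_one_le_exp (110 : ℝ)
    linarith
  refine ⟨n + k, ?_, ?_⟩
  · push_cast
    have h1 : 110 * n / ℓ ≤ Real.exp 110 * n / ℓ := by
      apply div_le_div_of_nonneg_right _ hℓpos.le
      nlinarith
    linarith
  · intro c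
    by_contra hno
    rw [not_or] at hno
    obtain ⟨hblue, hred⟩ := hno
    rw [not_isEmpty_iff] at hblue
    obtain ⟨φ⟩ := hblue
    have hcount := main_count (r := r) (Nat.one_le_pow _ _ (by omega)) c hred
      (pairProp_of_dim c φ)
    have hlt : (n + k + 1) ^ (r + 1) * (((n + k + 1) ^ d) ^ ((r + 1) ^ 2) * 2 ^ (n + k))
        < r ^ k := by
      apply lt_of_log (by omega) (Nat.one_le_pow _ _ (by omega)) hr1
      have hlogM : Real.log ((n + k + 1 : ℕ) : ℝ) ≤ 3 * Real.log n := by
        have h1 : ((n + k + 1 : ℕ) : ℝ) ≤ (n : ℝ) ^ 3 := by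
          push_cast
          nlinarith [mul_pos (show (0 : ℝ) < n by linarith) (show (0 : ℝ) < n by linarith)]
        have h2 := Real.log_le_log (by positivity) h1
        rw [Real.log_pow] at h2
        push_cast at h2 ⊢
        exact h2
      have hlogM0 : 0 ≤ Real.log ((n + k + 1 : ℕ) : ℝ) := by
        apply Real.log_nonneg
        exact_mod_cast (by omega : 1 ≤ n + k + 1)
      have hR : ((r + 1 : ℕ) : ℝ) ≤ 2 * Real.sqrt x := by push_cast; linarith
      have hR1 : (1 : ℝ) ≤ ((r + 1 : ℕ) : ℝ) := by push_cast; linarith [Nat.cast_nonneg (α := ℝ) r]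
      have hR2 : ((r + 1 : ℕ) : ℝ) ^ 2 ≤ 4 * x := by
        calc ((r + 1 : ℕ) : ℝ) ^ 2 ≤ (2 * Real.sqrt x) ^ 2 := pow_le_pow_left₀ (by linarith) hR 2
          _ = 4 * x := by rw [mul_pow, hsq]; norm_num
      have t1 : ((r + 1 : ℕ) : ℝ) ^ 2 * ((d : ℝ) * Real.log ((n + k + 1 : ℕ) : ℝ)) ≤ 12 * n := by
        calc ((r + 1 : ℕ) : ℝ) ^ 2 * ((d : ℝ) * Real.log ((n + k + 1 : ℕ) : ℝ))
            ≤ (4 * x) * ((d : ℝ) * (3 * Real.log n)) := by
              apply mul_le_mul hR2 _ (by positivity) (by positivity)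
              exact mul_le_mul_of_nonneg_left hlogM (by positivity)
          _ = 12 * (x * (d * Real.log n)) := by ring
          _ = 12 * n := by rw [hxn]
      have t2 : ((r + 1 : ℕ) : ℝ) * Real.log ((n + k + 1 : ℕ) : ℝ) ≤ 12 * n := by
        refine le_trans ?_ t1
        have h1 : ((r + 1 : ℕ) : ℝ) ≤ ((r + 1 : ℕ) : ℝ) ^ 2 := by nlinarith
        have h2 : Real.log ((n + k + 1 : ℕ) : ℝ) ≤ (d : ℝ) * Real.log ((n + k + 1 : ℕ) : ℝ) := by
          nlinarith
        exact mul_le_mul h1 h2 hlogM0 (by positivity)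
      have t3 : ((n + k : ℕ) : ℝ) * Real.log 2 ≤ 2 * n := by
        push_cast
        nlinarith
      have hlogr : ℓ / 4 ≤ Real.log r := by
        have h1 : Real.sqrt x / 2 ≤ r := by linarith
        have h2 : Real.log (Real.sqrt x / 2) ≤ Real.log r :=
          Real.log_le_log (by positivity) h1
        rw [Real.log_div (by positivity) (by norm_num), Real.log_sqrt hxpos.le, ← hℓ] at h2
        linarith
      have t4 : (110 * n / ℓ - 1) * (ℓ / 4) ≤ k * Real.log r := by
        calc (110 * n / ℓ - 1) * (ℓ / 4) ≤ k * (ℓ / 4) :=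
              mul_le_mul_of_nonneg_right (by linarith) (by positivity)
          _ ≤ k * Real.log r := mul_le_mul_of_nonneg_left hlogr (Nat.cast_nonneg _)
      have t5 : (110 * n / ℓ - 1) * (ℓ / 4) = 27.5 * n - ℓ / 4 := by
        field_simp
        ring
      have hKlog : Real.log (((n + k + 1) ^ d : ℕ) : ℝ)
          = (d : ℝ) * Real.log ((n + k + 1 : ℕ) : ℝ) := by
        rw [Nat.cast_pow, Real.log_pow]
      rw [hKlog]
      linarith
    omega

end Pool.Agent.Results.MP_b193f0_co.BlueDimension
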