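import Pool.Agent.Helper884_MultiScale.Ramsey

/-!
# `R(P, Q_n) = n + o(n)` for ordinal sums of posets of height at most two
-/

set_option autoImplicit false

namespace Pool.Agent.Results.MP_b193f0_co.HeightTwoSums

open Pool.Agent.Helper884_MultiScale

/-- **Ordinal sums of posets of height at most two.** Let `P` be a finite poset with a level function
`h : P → ℕ` such that elements of smaller level lie below elements of larger level and no level
contains a chain of three elements. Then `R(P, Q_n) ≤ (1 + o(1)) n`. -/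
theorem result :
    ∀ (P : Type) [PartialOrder P] [Fintype P] (h : P → ℕ),
      (∀ x y : P, h x < h y → x < y) →
      (∀ x y z : P, x < y → y < z → h x < h z) →
      ∀ ε : ℝ, 0 < ε →
      ∃ n₀ : ℕ, ∀ n : ℕ, n₀ ≤ n →
        ∃ N : ℕ, (N : ℝ) ≤ (1 + ε) * (n : ℝ) ∧
          ∀ c : Finset (Fin N) → Bool,
            (∃ f : P ↪o Finset (Fin N), ∀ x : P, c (f x) = true) ∨
            (∃ g : Finset (Fin n) ↪o Finset (Fin N), ∀ x : Finset (Fin n), c (g x) = false) := by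
  intro P _ _ h h1 h2 ε hε
  classical
  -- constants
  obtain ⟨L, hL⟩ : ∃ L : ℕ, ∀ x, h x < L :=
    ⟨Finset.univ.sup h + 1, fun x => Nat.lt_succ_of_le (Finset.le_sup (Finset.mem_univ x))⟩
  set δ : ℝ := min ε 1 with hδ
  have hδ0 : 0 < δ := lt_min hε one_pos
  have hδ1 : δ ≤ 1 := min_le_right _ _
  have hδε : δ ≤ ε := min_le_left _ _
  have hLpos : (0 : ℝ) < (L : ℝ) + 1 := by positivity
  obtain ⟨K₀, hK₀⟩ := eventually_bd (m := Fintype.card P + 2) (by omega)
    (show 0 < δ / (8 * ((L : ℝ) + 1)) by positivity)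
  obtain ⟨K₁, hK₁⟩ : ∃ K₁ : ℕ, 16 * ((L : ℝ) + 1) / δ ≤ K₁ := exists_nat_ge _
  set K : ℕ := K₀ + K₁ + 1 with hK
  have hKK₁ : (K₁ : ℝ) ≤ K := by
    have : K₁ ≤ K := by omega
    exact_mod_cast this
  have hKpos : (0 : ℝ) < K := by
    have : 0 < K := by omega
    exact_mod_cast this
  have hKbig : 16 * ((L : ℝ) + 1) ≤ K * δ := by
    rw [div_le_iff₀ hδ0] at hK₁
    nlinarith
  obtain ⟨D, hD, hbd⟩ := hK₀ K (by omega)
  set c : ℝ := δ / (8 * ((L : ℝ) + 1)) * K with hc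
  have hc0 : 0 ≤ c := by positivity
  have hcL : ((L : ℝ) + 1) * c = δ * K / 8 := by rw [hc]; field_simp
  set A : ℝ := Real.logb 2 (((L : ℝ) + 1) ^ (2 ^ K + 1) * (max D 1) ^ (L + 1)) with hA
  have hmax1 : (1 : ℝ) ≤ max D 1 := le_max_right _ _
  have hApos : (0 : ℝ) < ((L : ℝ) + 1) ^ (2 ^ K + 1) * (max D 1) ^ (L + 1) := by positivity
  have h2A : (2 : ℝ) ^ A = ((L : ℝ) + 1) ^ (2 ^ K + 1) * (max D 1) ^ (L + 1) :=
    Real.rpow_logb (by norm_num) (by norm_num) hApos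
  obtain ⟨n₀, hn₀⟩ : ∃ n₀ : ℕ, 2 * (A + K) / (δ * K) < n₀ := exists_nat_gt _
  refine ⟨n₀, fun n hn => ?_⟩
  set k : ℕ := ⌊δ * n⌋₊ with hk
  have hkle : (k : ℝ) ≤ δ * n := Nat.floor_le (by positivity)
  have hklt : δ * n < k + 1 := Nat.lt_floor_add_one _
  have hn0 : (0 : ℝ) ≤ n := Nat.cast_nonneg _
  refine ⟨n + k, ?_, ?_⟩
  · push_cast
    nlinarith
  · intro col
    by_contra hno
    rw [not_or] at hno
    obtain ⟨hblue, hred⟩ := hno
    have hcount := ramsey_count h h1 h2 (n := n) (k := k) (r := 2 ^ K) (L := L) hL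
      (D := max D 1) (c := c) hmax1 hc0 (by
        intro F hF u w S hS
        refine (hbd (n + k) F hF u w S hS).trans ?_
        exact mul_le_mul_of_nonneg_right (le_max_left _ _) (by positivity)) col hblue hred
    have hlhs : (((2 ^ K : ℕ) : ℝ)) ^ k = (2 : ℝ) ^ ((K : ℝ) * k) := by
      rw [Nat.cast_pow, Nat.cast_ofNat, ← pow_mul, ← Real.rpow_natCast]
      congr 1; push_cast; ring
    have hrhs : ((L : ℝ) + 1) ^ (2 ^ K + 1) *
        (4 ^ (n + k) * (max D 1 * 2 ^ (c * ((n + k : ℕ) : ℝ)))) ^ (L + 1)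
        = (2 : ℝ) ^ (A + ((L : ℝ) + 1) * ((2 + c) * ((n : ℝ) + k))) := by
      have e1 : (4 : ℝ) ^ (n + k) = 2 ^ ((2 : ℝ) * ((n + k : ℕ) : ℝ)) := by
        rw [Real.rpow_mul (by norm_num), Real.rpow_natCast]; norm_num
      have e2 : ((2 : ℝ) ^ ((2 : ℝ) * ((n + k : ℕ) : ℝ)) * 2 ^ (c * ((n + k : ℕ) : ℝ))) ^ (L + 1)
          = 2 ^ (((L : ℝ) + 1) * ((2 + c) * ((n : ℝ) + k))) := by
        rw [← Real.rpow_add (by norm_num), ← Real.rpow_natCast, ← Real.rpow_mul (by norm_num)]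
        congr 1; push_cast; ring
      rw [Real.rpow_add (by norm_num), h2A, ← e2, e1]
      ring
    rw [hlhs, hrhs, Real.rpow_le_rpow_left_iff (by norm_num)] at hcount
    -- arithmetic
    have hnn : (n : ℝ) + k ≤ 2 * n := by nlinarith
    have h3 : ((L : ℝ) + 1) * ((2 + c) * ((n : ℝ) + k))
        ≤ ((L : ℝ) + 1) * ((2 + c) * (2 * n)) := by
      apply mul_le_mul_of_nonneg_left _ hLpos.le
      apply mul_le_mul_of_nonneg_left hnn (by linarith)
    have h4 : ((L : ℝ) + 1) * ((2 + c) * (2 * n)) ≤ δ * K * n / 2 := by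
      have h5 : ((L : ℝ) + 1) * ((2 + c) * (2 * n))
          = (4 * ((L : ℝ) + 1) + 2 * (((L : ℝ) + 1) * c)) * n := by ring
      rw [h5, hcL]
      have h6 : (4 * ((L : ℝ) + 1) + 2 * (δ * K / 8)) ≤ δ * K / 2 := by linarith
      calc (4 * ((L : ℝ) + 1) + 2 * (δ * K / 8)) * n ≤ (δ * K / 2) * n :=
            mul_le_mul_of_nonneg_right h6 hn0
        _ = δ * K * n / 2 := by ring
    have h7 : (K : ℝ) * (δ * n - 1) ≤ K * k := by
      apply mul_le_mul_of_nonneg_left _ hKpos.le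
      linarith
    have h8 : δ * K * n ≤ 2 * (A + K) := by
      have : (K : ℝ) * (δ * n - 1) = δ * K * n - K := by ring
      linarith
    rw [div_lt_iff₀ (by positivity)] at hn₀
    have h9 : (n₀ : ℝ) ≤ n := by exact_mod_cast hn
    have h10 : (n₀ : ℝ) * (δ * K) ≤ n * (δ * K) :=
      mul_le_mul_of_nonneg_right h9 (by positivity)
    linarith

end Pool.Agent.Results.MP_b193f0_co.HeightTwoSums
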