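import Pool.Agent.Helper884_ChainCount.Asym

/-!
# Poset Ramsey numbers of spiders versus Boolean lattices
-/

set_option autoImplicit false

namespace Pool.Agent.Results.MP_b193f0_co.Spiders

open Filter Pool.Agent.Helper884_ChainCount

lemma spider_dim (m : ℕ) (hm : 3 ≤ m) (α β : Type) [LinearOrder α] [LinearOrder β] :
    IsEmpty (Spider m ↪o α × β) := by
  refine ⟨fun f => ?_⟩
  have hle : ∀ x y : Spider m, f x ≤ f y ↔ Spider.Le x y := fun x y => f.le_iff_le
  have hinc : ∀ i : Fin m,
      ((f (.high i)).1 < (f .center).1 ∧ (f .center).2 < (f (.high i)).2) ∨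
      ((f .center).1 < (f (.high i)).1 ∧ (f (.high i)).2 < (f .center).2) := by
    intro i
    have h1 : ¬ f (.high i) ≤ f .center := fun h => by simpa [Spider.Le] using (hle _ _).1 h
    have h2 : ¬ f .center ≤ f (.high i) := fun h => by simpa [Spider.Le] using (hle _ _).1 h
    rw [Prod.le_def, not_and_or, not_le, not_le] at h1 h2
    rcases h1 with h1 | h1 <;> rcases h2 with h2 | h2
    · exact absurd (h1.trans h2) (lt_irrefl _)
    · exact Or.inr ⟨h1, h2⟩
    · exact Or.inl ⟨h2, h1⟩
    · exact absurd (h1.trans h2) (lt_irrefl _)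
  have hlc : ∀ i : Fin m, f (.low i) ≤ f .center := fun i => (hle _ _).2 trivial
  have hlh : ∀ i : Fin m, f (.low i) ≤ f (.high i) := fun i => (hle _ _).2 rfl
  have hnlh : ∀ i j : Fin m, i ≠ j → ¬ f (.low i) ≤ f (.high j) := fun i j hij h =>
    hij ((hle _ _).1 h)
  have no1 : ∀ i j : Fin m, i ≠ j →
      ((f (.high i)).1 < (f .center).1 ∧ (f .center).2 < (f (.high i)).2) →
      ((f (.high j)).1 < (f .center).1 ∧ (f .center).2 < (f (.high j)).2) → False := by
    have key : ∀ i j : Fin m, i ≠ j →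
        ((f (.high i)).1 < (f .center).1 ∧ (f .center).2 < (f (.high i)).2) →
        (f (.low i)).1 < (f (.low j)).1 := by
      intro i j hij hi
      have h := hnlh j i hij.symm
      rw [Prod.le_def, not_and_or, not_le, not_le] at h
      rcases h with h | h
      · exact (hlh i).1.trans_lt h
      · exact absurd ((hi.2.trans h).trans_le (hlc j).2) (lt_irrefl _)
    intro i j hij hi hj
    exact absurd ((key i j hij hi).trans (key j i hij.symm hj)) (lt_irrefl _)
  have no2 : ∀ i j : Fin m, i ≠ j →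
      ((f .center).1 < (f (.high i)).1 ∧ (f (.high i)).2 < (f .center).2) →
      ((f .center).1 < (f (.high j)).1 ∧ (f (.high j)).2 < (f .center).2) → False := by
    have key : ∀ i j : Fin m, i ≠ j →
        ((f .center).1 < (f (.high i)).1 ∧ (f (.high i)).2 < (f .center).2) →
        (f (.low i)).2 < (f (.low j)).2 := by
      intro i j hij hi
      have h := hnlh j i hij.symm
      rw [Prod.le_def, not_and_or, not_le, not_le] at h
      rcases h with h | h
      · exact absurd ((hi.1.trans h).trans_le (hlc j).1) (lt_irrefl _)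
      · exact (hlh i).2.trans_lt h
    intro i j hij hi hj
    exact absurd ((key i j hij hi).trans (key j i hij.symm hj)) (lt_irrefl _)
  have h01 : (⟨0, by omega⟩ : Fin m) ≠ ⟨1, by omega⟩ := by simp
  have h02 : (⟨0, by omega⟩ : Fin m) ≠ ⟨2, by omega⟩ := by simp
  have h12 : (⟨1, by omega⟩ : Fin m) ≠ ⟨2, by omega⟩ := by simp
  rcases hinc ⟨0, by omega⟩ with h0 | h0 <;> rcases hinc ⟨1, by omega⟩ with h1 | h1 <;>
    rcases hinc ⟨2, by omega⟩ with h2 | h2
  · exact no1 _ _ h01 h0 h1
  · exact no1 _ _ h01 h0 h1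
  · exact no1 _ _ h02 h0 h2
  · exact no2 _ _ h12 h1 h2
  · exact no1 _ _ h12 h1 h2
  · exact no2 _ _ h02 h0 h2
  · exact no2 _ _ h01 h0 h1
  · exact no2 _ _ h01 h0 h1

/-- **Spiders against Boolean lattices.** For every `m`, the spider with `m` legs satisfies
`R(Spider m, Q_n) ≤ n + (2 + o(1)) n / log₂ n`; and for `m ≥ 3` the spider does not have order
dimension at most two. -/
theorem result :
    (∀ m : ℕ, ∀ ε : ℝ, 0 < ε → ∃ n₀ : ℕ, ∀ n : ℕ, n₀ ≤ n →
      ∃ N : ℕ, (N : ℝ) ≤ n + (2 + ε) * n / Real.logb 2 n ∧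
        ∀ c : Finset (Fin N) → Bool,
          (∃ f : Spider m ↪o Finset (Fin N), ∀ x : Spider m, c (f x) = true) ∨
          (∃ g : Finset (Fin n) ↪o Finset (Fin N), ∀ x : Finset (Fin n), c (g x) = false)) ∧
    (∀ m : ℕ, 3 ≤ m → ∀ (α β : Type) [LinearOrder α] [LinearOrder β],
      IsEmpty (Spider m ↪o α × β)) := by
  refine ⟨?_, fun m hm α β _ _ => spider_dim m hm α β⟩
  intro m ε hε
  set M := m + 2 with hM
  set C := 2 + ε with hC
  set θ := (1 / 2 + 1 / C) / 2 with hθ
  have hCpos : 0 < C := by positivity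
  have h1C : 1 / C < 1 / 2 := by
    apply one_div_lt_one_div_of_lt (by norm_num)
    linarith
  have hθpos : 0 < θ := by positivity
  have hθ2 : 2 * θ < 1 := by rw [hθ]; linarith
  have hCθ : 1 < C * θ := by
    have h1 : C * (1 / C) = 1 := by field_simp
    rw [hθ]
    nlinarith
  have hev := asym_poly θ C (3 * M + 2) hθpos hθ2 hCθ (by positivity)
  obtain ⟨n₀, hn₀⟩ := eventually_atTop.1 hev
  refine ⟨max n₀ 2, fun n hn => ?_⟩
  have hn2 : 2 ≤ n := (le_max_right _ _).trans hn
  have hasym := hn₀ n ((le_max_left _ _).trans hn)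
  set k := ⌊C * n / Real.logb 2 n⌋₊ with hk
  have hlogn : 0 < Real.logb 2 (n : ℝ) :=
    Real.logb_pos (by norm_num) (by exact_mod_cast (by omega : 1 < n))
  refine ⟨n + k, ?_, ?_⟩
  · push_cast
    have : (k : ℝ) ≤ C * n / Real.logb 2 n := Nat.floor_le (by positivity)
    linarith
  · intro c
    by_contra hno
    rw [not_or] at hno
    obtain ⟨hblue, hred⟩ := hno
    have hfree : ¬ ∃ f : Spider M ↪o Finset (Fin (n + k)), ∀ x, c (f x) = true := by
      rintro ⟨f, hf⟩
      exact hblue ⟨(Spider.castLE (by omega : m ≤ M)).trans f, fun x => hf _⟩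
    have hKb := Kc_bound (n + k) M (by omega) (by omega)
    have hcount := main_count (r := ⌈(n : ℝ) ^ θ⌉₊) hKb.1 c hred
      (pairProp_of_spider (by omega) (by omega) c hfree)
    have hlt := hasym _ hKb.1 (by
      have := hKb.2
      push_cast at this ⊢
      exact this)
    omega

end Pool.Agent.Results.MP_b193f0_co.Spiders
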